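import Mathlib

/-!
# Two edge-disjoint perfect matchings, the first one monochromatic
-/

set_option autoImplicit false

namespace Q229.CP

/-- A 2-edge-coloured bipartite graph, given by the matrix of its edges: the rows are the vertices
of `U`, the columns are the vertices of `V`, the entry `0` means that there is no edge, and the
entries `1`, `2` mean that there is an edge with this colour. -/
abbrev Inst : Type := List (List ℕ)

/-- The number of columns. -/
def width (M : Inst) : ℕ := (M.head?.getD []).length

/-- The input is a matrix (all rows have the same length) with entries `0`, `1`, `2`. -/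
def Valid (M : Inst) : Prop := ∀ r ∈ M, r.length = width M ∧ ∀ x ∈ r, x ≤ 2

/-- An entry of the matrix. -/
def entry (M : Inst) (i j : ℕ) : ℕ := (M.getD i []).getD j 0

/-- The edges of the graph. -/
def edges (M : Inst) : Set (Fin M.length × Fin (width M)) := {e | entry M e.1.1 e.2.1 ≠ 0}

/-- `P` is a perfect matching of the bipartite graph with the edges `E`: a set of edges that
contains exactly one edge at every vertex. -/
def IsPM {U V : Type} (E P : Set (U × V)) : Prop :=
  P ⊆ E ∧ (∀ u, ∃! v, (u, v) ∈ P) ∧ ∀ v, ∃! u, (u, v) ∈ P

/-- **COL-2PM**: there are edge-disjoint perfect matchings `P`, `Q` such that all edges of `P` have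
colour `1`. -/
def COL2PM (M : Inst) : Prop :=
  Valid M ∧ ∃ P Q : Set (Fin M.length × Fin (width M)),
    IsPM (edges M) P ∧ IsPM (edges M) Q ∧ Disjoint P Q ∧ ∀ e ∈ P, entry M e.1.1 e.2.1 = 1

end Q229.CP
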