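import Pool.Agent.Q229.CP.Red
import Pool.Agent.NPC.Sat
import Pool.Agent.NPC.Dec
import Pool.Agent.H671R2.PolyAuto
import Pool.Agent.H612.CollectPoly

/-!
# COL-2PM is NP-complete
-/

set_option autoImplicit false

namespace Q229.CP

open Pool.Agent Pool.Agent.NPC

theorem poly_vars : Poly vars := by
  unfold vars
  refine H612.poly_dedup (Poly.flatMap Poly.id ?_)
  exact NPC.Poly.map (Poly.snd Poly.id) (Poly.snd (Poly.snd Poly.id))

theorem poly_N {α : Type} [TEnc α] {φ : α → Cnf} (h : Poly φ) : Poly (fun a => N (φ a)) := by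
  unfold N
  fun_prop

attribute [fun_prop] poly_N

theorem poly_E {α : Type} [TEnc α] {φ : α → Cnf} {a b : α → Lab} (hφ : Poly φ) (ha : Poly a)
    (hb : Poly b) : Poly (fun x => E (φ x) (a x) (b x)) := by
  unfold E
  fun_prop

theorem poly_rangeN : Poly (fun φ : Cnf => List.range (N φ)) :=
  NPC.Poly.range_uPoly (UPoly.mul (UPoly.const 2) (UPoly.length Poly.id))

theorem poly_range : Poly (fun φ : Cnf => List.range φ.length) :=
  NPC.Poly.range_uPoly (UPoly.length Poly.id)

theorem poly_labs : Poly labs := by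
  unfold labs
  refine Poly.append (Poly.flatMap poly_vars ?_)
    (NPC.Poly.map poly_range (Poly.inr (Poly.snd Poly.id)))
  exact NPC.Poly.map (poly_rangeN.comp (Poly.fst Poly.id))
    (Poly.inl (Poly.pair (Poly.snd (Poly.fst Poly.id)) (Poly.snd Poly.id)))

theorem poly_red : Poly red := by
  unfold red mt
  refine NPC.Poly.map poly_labs (NPC.Poly.map (poly_labs.comp (Poly.fst Poly.id)) ?_)
  exact poly_E (Poly.fst (Poly.fst Poly.id)) (Poly.snd (Poly.fst Poly.id)) (Poly.snd Poly.id)

theorem hard : NPHardP COL2PM :=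
  (hardI_SAT.trans poly_red fun φ => red_iff φ).toNPHardP

/-! ### Membership in NP -/

/-- the verifier -/
def ver (z : Inst × (List ℕ × List ℕ)) : Bool :=
  (z.1.all fun r => decide (r.length = width z.1) && r.all fun x => decide (x ≤ 2)) &&
  (decide (width z.1 = z.1.length) &&
  ((decide (z.2.1.length = z.1.length) && (decide (z.2.1.dedup = z.2.1) &&
    z.2.1.all fun x => decide (x < z.1.length))) &&
  ((decide (z.2.2.length = z.1.length) && (decide (z.2.2.dedup = z.2.2) &&
    z.2.2.all fun x => decide (x < z.1.length))) &&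
  ((List.range z.1.length).all fun i => decide (entry z.1 i (z.2.1.getD i 0) = 1) &&
    (!(decide (entry z.1 i (z.2.2.getD i 0) = 0)) &&
      !(decide (z.2.1.getD i 0 = z.2.2.getD i 0)))))))

theorem ver_iff {M : Inst} {u v : List ℕ} : ver (M, (u, v)) = true ↔
    Valid M ∧ width M = M.length ∧
    (u.length = M.length ∧ u.Nodup ∧ ∀ x ∈ u, x < M.length) ∧
    (v.length = M.length ∧ v.Nodup ∧ ∀ x ∈ v, x < M.length) ∧
    ∀ i < M.length, entry M i (u.getD i 0) = 1 ∧ entry M i (v.getD i 0) ≠ 0 ∧
      u.getD i 0 ≠ v.getD i 0 := by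
  unfold ver Valid
  simp only [Bool.and_eq_true, decide_eq_true_eq, List.all_eq_true, List.dedup_eq_self,
    List.mem_range, Bool.not_eq_true', decide_eq_false_iff_not, ne_eq]

theorem inj_of {n : ℕ} {u : List ℕ} (h1 : u.length = n) (h2 : u.Nodup) (h3 : ∀ x ∈ u, x < n) :
    Inj n (fun i => u.getD i 0) := by
  refine ⟨fun i hi => ?_, fun i hi j hj hij => ?_⟩
  · rw [← h1] at hi
    simp only
    rw [List.getD_eq_getElem _ _ hi]
    exact h3 _ (List.getElem_mem _)
  · rw [← h1] at hi hj
    simp only at hij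
    rw [List.getD_eq_getElem _ _ hi, List.getD_eq_getElem _ _ hj] at hij
    exact (h2.getElem_inj_iff).1 hij

theorem sz_nat_lin (n : ℕ) : sz n ≤ 4 * n + 1 := by
  have h1 := sz_nat_le n
  have h2 : n.size ≤ n := by
    rw [Nat.size_le]
    exact Nat.lt_two_pow_self
  omega

theorem sz_map_range {n : ℕ} {σ : ℕ → ℕ} (h : ∀ i < n, σ i < n) :
    sz ((List.range n).map σ) ≤ n * (4 * n + 2) + 1 := by
  have key : ∀ l : List ℕ, (∀ i ∈ l, σ i < n) → sz (l.map σ) ≤ l.length * (4 * n + 2) + 1 := by
    intro l
    induction l with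
    | nil => intro _; simp
    | cons a l ih =>
      intro hl
      have h1 := ih (fun i hi => hl i (List.mem_cons_of_mem _ hi))
      have h2 := sz_nat_lin (σ a)
      have h4 : σ a < n := hl a (by simp)
      rw [List.map_cons, sz_list_cons, List.length_cons]
      have h3 : (l.length + 1) * (4 * n + 2) = l.length * (4 * n + 2) + (4 * n + 2) := by ring
      omega
  have := key (List.range n) (fun i hi => h i (List.mem_range.1 hi))
  rwa [List.length_range] at this

theorem poly_width {α : Type} [TEnc α] {M : α → Inst} (h : Poly M) :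
    Poly (fun a => width (M a)) := by
  unfold width
  fun_prop

theorem poly_entry {α : Type} [TEnc α] {M : α → Inst} {i j : α → ℕ} (h : Poly M) (hi : Poly i)
    (hj : Poly j) : Poly (fun a => entry (M a) (i a) (j a)) := by
  unfold entry
  fun_prop

attribute [fun_prop] poly_width poly_entry

theorem poly_ver : Poly ver := by
  have h0 : Poly (fun z : Inst × (List ℕ × List ℕ) => z.1.length) := by fun_prop
  have h1 : Poly (fun z : Inst × (List ℕ × List ℕ) =>
      (z.1.all fun r => decide (r.length = width z.1) && r.all fun x => decide (x ≤ 2))) := by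
    fun_prop
  have h2 : Poly (fun z : Inst × (List ℕ × List ℕ) => decide (width z.1 = z.1.length)) := by
    fun_prop
  have h3 : Poly (fun z : Inst × (List ℕ × List ℕ) => z.2.1.dedup) :=
    H612.poly_dedup (by fun_prop)
  have h4 : Poly (fun z : Inst × (List ℕ × List ℕ) => z.2.2.dedup) :=
    H612.poly_dedup (by fun_prop)
  have h5 : Poly (fun z : Inst × (List ℕ × List ℕ) =>
      (decide (z.2.1.length = z.1.length) && (decide (z.2.1.dedup = z.2.1) &&
        z.2.1.all fun x => decide (x < z.1.length)))) := by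
    fun_prop
  have h6 : Poly (fun z : Inst × (List ℕ × List ℕ) =>
      (decide (z.2.2.length = z.1.length) && (decide (z.2.2.dedup = z.2.2) &&
        z.2.2.all fun x => decide (x < z.1.length)))) := by
    fun_prop
  have h7 : Poly (fun z : Inst × (List ℕ × List ℕ) => List.range z.1.length) :=
    NPC.Poly.range_uPoly (UPoly.length (Poly.fst Poly.id))
  have h8 : Poly (fun z : Inst × (List ℕ × List ℕ) =>
      ((List.range z.1.length).all fun i => decide (entry z.1 i (z.2.1.getD i 0) = 1) &&
      (!(decide (entry z.1 i (z.2.2.getD i 0) = 0)) &&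
        !(decide (z.2.1.getD i 0 = z.2.2.getD i 0))))) := by
    refine Poly.all h7 ?_
    fun_prop
  unfold ver
  exact Poly.and h1 (Poly.and h2 (Poly.and h5 (Poly.and h6 h8)))

theorem inNP : InNPP COL2PM := by
  refine inNPP_of poly_ver (Polynomial.C 8 * (Polynomial.X + 1) ^ 2 + Polynomial.C 8) (fun M => ?_)
  rw [col2pm_iff]
  constructor
  · rintro ⟨h1, h2, σ, ρ, hσ, hρ, h3⟩
    refine ⟨((List.range M.length).map σ, (List.range M.length).map ρ), ?_, ?_⟩
    · have e1 := sz_map_range hσ.1
      have e2 := sz_map_range hρ.1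
      have e3 := length_lt_sz M
      rw [sz_pair]
      simp only [Polynomial.eval_add, Polynomial.eval_mul, Polynomial.eval_C, Polynomial.eval_X,
        Polynomial.eval_pow, Polynomial.eval_one]
      nlinarith
    · rw [ver_iff]
      have hn : ∀ τ : ℕ → ℕ, Inj M.length τ → ((List.range M.length).map τ).Nodup := by
        intro τ hτ
        refine (List.nodup_map_iff_inj_on List.nodup_range).2 ?_
        intro i hi j hj hij
        exact hτ.2 _ (List.mem_range.1 hi) _ (List.mem_range.1 hj) hij
      have hb : ∀ τ : ℕ → ℕ, Inj M.length τ → ∀ x ∈ ((List.range M.length).map τ), x < M.length := by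
        intro τ hτ x hx
        rw [List.mem_map] at hx
        obtain ⟨i, hi, rfl⟩ := hx
        exact hτ.1 _ (List.mem_range.1 hi)
      have hg : ∀ (τ : ℕ → ℕ) (i : ℕ), i < M.length →
          ((List.range M.length).map τ).getD i 0 = τ i := by
        intro τ i hi
        rw [List.getD_eq_getElem _ _ (by simpa using hi)]
        simp
      refine ⟨h1, h2, ⟨by simp, hn σ hσ, hb σ hσ⟩, ⟨by simp, hn ρ hρ, hb ρ hρ⟩, fun i hi => ?_⟩
      rw [hg σ i hi, hg ρ i hi]
      exact h3 i hi
  · rintro ⟨⟨u, v⟩, -, h⟩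
    rw [ver_iff] at h
    obtain ⟨h1, h2, ⟨h3, h4, h5⟩, ⟨h6, h7, h8⟩, h9⟩ := h
    exact ⟨h1, h2, _, _, inj_of h3 h4 h5, inj_of h6 h7 h8, h9⟩

end Q229.CP
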