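import Pool.Agent.Q229.CP.Defs

/-!
# Perfect matchings as functions
-/

set_option autoImplicit false

namespace Q229.CP

/-- injective self-maps of `{0, ..., n - 1}` -/
def Inj (n : ℕ) (σ : ℕ → ℕ) : Prop := (∀ i < n, σ i < n) ∧ ∀ i < n, ∀ j < n, σ i = σ j → i = j

theorem card_of_pm {m w : ℕ} {E P : Set (Fin m × Fin w)} (h : IsPM E P) : m = w := by
  classical
  obtain ⟨-, h1, h2⟩ := h
  choose f hf hf' using h1
  choose g hg hg' using h2
  have e : Fin m ≃ Fin w := ⟨f, g, fun u => by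
    have := hg' (f u) u (hf u)
    exact this.symm, fun v => by
    have := hf' (g v) v (hg v)
    exact this.symm⟩
  simpa using Fintype.card_congr e

/-- a perfect matching gives an injective function -/
theorem exists_fun {m w : ℕ} {E P : Set (Fin m × Fin w)} (h : IsPM E P) :
    ∃ σ : ℕ → ℕ, Inj m σ ∧ ∀ (i : Fin m) (j : Fin w), (i, j) ∈ P ↔ σ i.1 = j.1 := by
  classical
  have hmw := card_of_pm h
  obtain ⟨-, h1, h2⟩ := h
  choose f hf hf' using h1
  refine ⟨fun i => if hi : i < m then (f ⟨i, hi⟩).1 else 0, ⟨fun i hi => ?_, fun i hi j hj hij => ?_⟩,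
    fun i j => ?_⟩
  · beta_reduce
    rw [dif_pos hi]
    exact (f ⟨i, hi⟩).2.trans_eq hmw.symm
  · simp only [dif_pos hi, dif_pos hj] at hij
    have h3 : f ⟨i, hi⟩ = f ⟨j, hj⟩ := Fin.ext hij
    obtain ⟨u, -, hu⟩ := h2 (f ⟨i, hi⟩)
    have h4 := hu ⟨i, hi⟩ (hf _)
    have h5 := hu ⟨j, hj⟩ (by
      have := hf ⟨j, hj⟩
      rw [← h3] at this
      exact this)
    have h6 := h4.trans h5.symm
    simpa using h6
  · beta_reduce
    rw [dif_pos i.2]
    constructor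
    · intro h3
      rw [hf' i j h3]
    · intro h3
      have : f i = j := Fin.ext h3
      rw [← this]
      exact hf i

theorem pm_of_fun {m w : ℕ} (hmw : w = m) {E : Set (Fin m × Fin w)} {σ : ℕ → ℕ} (hσ : Inj m σ)
    (hE : ∀ (i : Fin m) (j : Fin w), σ i.1 = j.1 → (i, j) ∈ E) :
    IsPM E {e | σ e.1.1 = e.2.1} := by
  subst hmw
  refine ⟨fun e he => hE e.1 e.2 he, fun u => ?_, fun v => ?_⟩
  · refine ⟨⟨σ u.1, hσ.1 _ u.2⟩, rfl, fun v hv => ?_⟩
    exact Fin.ext (Eq.symm hv)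
  · let f : Fin w → Fin w := fun u => ⟨σ u.1, hσ.1 _ u.2⟩
    have hf : Function.Injective f := by
      intro a b hab
      have : σ a.1 = σ b.1 := congrArg Fin.val hab
      exact Fin.ext (hσ.2 _ a.2 _ b.2 this)
    obtain ⟨u, hu⟩ := (Finite.injective_iff_surjective.1 hf) v
    refine ⟨u, congrArg Fin.val hu, fun u' hu' => ?_⟩
    apply hf
    rw [hu]
    exact Fin.ext hu'

theorem col2pm_iff {M : Inst} : COL2PM M ↔ Valid M ∧ width M = M.length ∧
    ∃ σ ρ : ℕ → ℕ, Inj M.length σ ∧ Inj M.length ρ ∧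
      ∀ i < M.length, entry M i (σ i) = 1 ∧ entry M i (ρ i) ≠ 0 ∧ σ i ≠ ρ i := by
  unfold COL2PM
  refine and_congr_right fun _ => ⟨?_, ?_⟩
  · rintro ⟨P, Q, hP, hQ, hPQ, hc⟩
    have hmw := card_of_pm hP
    obtain ⟨σ, hσ, hσ'⟩ := exists_fun hP
    obtain ⟨ρ, hρ, hρ'⟩ := exists_fun hQ
    refine ⟨hmw.symm, σ, ρ, hσ, hρ, fun i hi => ?_⟩
    have h1 : ((⟨i, hi⟩ : Fin M.length), (⟨σ i, (hσ.1 i hi).trans_eq hmw⟩ : Fin (width M))) ∈ P :=
      (hσ' _ _).2 rfl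
    have h2 : ((⟨i, hi⟩ : Fin M.length), (⟨ρ i, (hρ.1 i hi).trans_eq hmw⟩ : Fin (width M))) ∈ Q :=
      (hρ' _ _).2 rfl
    refine ⟨hc _ h1, hQ.1 h2, fun h3 => ?_⟩
    have h4 : ((⟨i, hi⟩ : Fin M.length), (⟨σ i, (hσ.1 i hi).trans_eq hmw⟩ : Fin (width M))) ∈ Q :=
      (hρ' _ _).2 h3.symm
    exact Set.disjoint_left.1 hPQ h1 h4
  · rintro ⟨hw, σ, ρ, hσ, hρ, h⟩
    refine ⟨{e | σ e.1.1 = e.2.1}, {e | ρ e.1.1 = e.2.1}, pm_of_fun hw hσ ?_, pm_of_fun hw hρ ?_,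
      ?_, ?_⟩
    · intro i j hij
      change entry M i.1 j.1 ≠ 0
      rw [← hij, (h i.1 i.2).1]
      exact one_ne_zero
    · intro i j hij
      change entry M i.1 j.1 ≠ 0
      rw [← hij]
      exact (h i.1 i.2).2.1
    · rw [Set.disjoint_left]
      intro e h1 h2
      exact (h e.1.1 e.1.2).2.2 ((show σ e.1.1 = e.2.1 from h1).trans
        (show ρ e.1.1 = e.2.1 from h2).symm)
    · intro e he
      have : σ e.1.1 = e.2.1 := he
      rw [← this]
      exact (h e.1.1 e.1.2).1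

section labels

variable {Λ : Type} [DecidableEq Λ]

/-- the matrix with rows and columns labelled by `L` -/
def mt (L : List Λ) (E : Λ → Λ → ℕ) : Inst := L.map fun a => L.map fun b => E a b

omit [DecidableEq Λ] in
theorem mt_length (L : List Λ) (E : Λ → Λ → ℕ) : (mt L E).length = L.length := by
  unfold mt; rw [List.length_map]

omit [DecidableEq Λ] in
theorem mt_width (L : List Λ) (E : Λ → Λ → ℕ) : width (mt L E) = L.length := by
  unfold width mt
  cases L with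
  | nil => rfl
  | cons a l => simp

omit [DecidableEq Λ] in
theorem mt_entry {L : List Λ} {E : Λ → Λ → ℕ} {i j : ℕ} (hi : i < L.length) (hj : j < L.length) :
    entry (mt L E) i j = E L[i] L[j] := by
  unfold entry mt
  simp [List.getD_eq_getElem?_getD, hi, hj]

theorem col2pm_mt {L : List Λ} (hL : L.Nodup) {E : Λ → Λ → ℕ} (hE : ∀ a b, E a b ≤ 2) :
    COL2PM (mt L E) ↔ ∃ s r : Λ → Λ, (∀ a ∈ L, s a ∈ L ∧ r a ∈ L) ∧
      (∀ a ∈ L, ∀ b ∈ L, s a = s b → a = b) ∧ (∀ a ∈ L, ∀ b ∈ L, r a = r b → a = b) ∧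
      ∀ a ∈ L, E a (s a) = 1 ∧ E a (r a) ≠ 0 ∧ s a ≠ r a := by
  rw [col2pm_iff, mt_length, mt_width]
  have hv : Valid (mt L E) := by
    intro r hr
    rw [mt_width]
    unfold mt at hr
    rw [List.mem_map] at hr
    obtain ⟨a, -, rfl⟩ := hr
    refine ⟨by rw [List.length_map], fun x hx => ?_⟩
    rw [List.mem_map] at hx
    obtain ⟨b, -, rfl⟩ := hx
    exact hE a b
  simp only [hv, true_and]
  constructor
  · rintro ⟨σ, ρ, hσ, hρ, h⟩
    have tr : ∀ (τ : ℕ → ℕ), Inj L.length τ → ∃ t : Λ → Λ, (∀ a ∈ L, t a ∈ L) ∧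
        (∀ a ∈ L, ∀ b ∈ L, t a = t b → a = b) ∧
        ∀ i (hi : i < L.length) (hi' : τ i < L.length), t L[i] = L[τ i] := by
      intro τ hτ
      have hidx : ∀ a ∈ L, L.idxOf a < L.length := fun a ha => List.idxOf_lt_length_of_mem ha
      refine ⟨fun a => L.getD (τ (L.idxOf a)) a, fun a ha => ?_, fun a ha b hb hab => ?_,
        fun i hi hi' => ?_⟩
      · beta_reduce
        rw [List.getD_eq_getElem _ _ (hτ.1 _ (hidx a ha))]
        exact List.getElem_mem _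
      · simp only at hab
        rw [List.getD_eq_getElem _ _ (hτ.1 _ (hidx a ha)),
          List.getD_eq_getElem _ _ (hτ.1 _ (hidx b hb)), hL.getElem_inj_iff] at hab
        have := hτ.2 _ (hidx a ha) _ (hidx b hb) hab
        exact (List.idxOf_inj ha).1 this
      · have h1 : L.idxOf L[i] = i := hL.idxOf_getElem i hi
        simp only [h1]
        rw [List.getD_eq_getElem _ _ hi']
    obtain ⟨s, hs1, hs2, hs3⟩ := tr σ hσ
    obtain ⟨r, hr1, hr2, hr3⟩ := tr ρ hρ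
    refine ⟨s, r, fun a ha => ⟨hs1 a ha, hr1 a ha⟩, hs2, hr2, fun a ha => ?_⟩
    obtain ⟨i, hi, rfl⟩ := List.getElem_of_mem ha
    obtain ⟨h1, h2, h3⟩ := h i hi
    rw [mt_entry hi (hσ.1 i hi)] at h1
    rw [mt_entry hi (hρ.1 i hi)] at h2
    rw [hs3 i hi (hσ.1 i hi), hr3 i hi (hρ.1 i hi)]
    refine ⟨h1, h2, fun h4 => h3 ((hL.getElem_inj_iff).1 h4)⟩
  · rintro ⟨s, r, hsr, hs, hr, h⟩
    have tr : ∀ (t : Λ → Λ), (∀ a ∈ L, t a ∈ L) → (∀ a ∈ L, ∀ b ∈ L, t a = t b → a = b) →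
        ∃ τ : ℕ → ℕ, Inj L.length τ ∧
          ∀ i (hi : i < L.length) (hi' : τ i < L.length), t L[i] = L[τ i] := by
      intro t ht1 ht2
      refine ⟨fun i => if hi : i < L.length then L.idxOf (t L[i]) else 0, ⟨fun i hi => ?_,
        fun i hi j hj hij => ?_⟩, fun i hi hi' => ?_⟩
      · beta_reduce
        rw [dif_pos hi]
        exact List.idxOf_lt_length_of_mem (ht1 _ (List.getElem_mem _))
      · simp only [dif_pos hi, dif_pos hj] at hij
        have h1 := (List.idxOf_inj (ht1 _ (List.getElem_mem hi))).1 hij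
        have h2 := ht2 _ (List.getElem_mem hi) _ (List.getElem_mem hj) h1
        exact (hL.getElem_inj_iff).1 h2
      · simp only [dif_pos hi]
        rw [List.getElem_idxOf]
    obtain ⟨σ, hσ, hσ'⟩ := tr s (fun a ha => (hsr a ha).1) hs
    obtain ⟨ρ, hρ, hρ'⟩ := tr r (fun a ha => (hsr a ha).2) hr
    refine ⟨σ, ρ, hσ, hρ, fun i hi => ?_⟩
    obtain ⟨h1, h2, h3⟩ := h L[i] (List.getElem_mem hi)
    rw [hσ' i hi (hσ.1 i hi)] at h1 h3
    rw [hρ' i hi (hρ.1 i hi)] at h2 h3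
    rw [mt_entry hi (hσ.1 i hi), mt_entry hi (hρ.1 i hi)]
    refine ⟨h1, h2, fun h4 => h3 ?_⟩
    simp only [h4]

end labels

end Q229.CP
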