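import Pool.Agent.Q229.CP.Fun

/-!
# The reduction from satisfiability
-/

set_option autoImplicit false

namespace Q229.CP

/-- Labels of the vertices of `U` and also of `V`: `inl (x, i)` is the vertex number `i` (in its
class) of the cycle of the variable `x`, and `inr j` is a vertex of the clause number `j`. -/
abbrev Lab : Type := (ℕ × ℕ) ⊕ ℕ

/-- The formula. -/
abbrev Cnf : Type := List (List (Bool × ℕ))

/-- length (half of it) of the cycles -/
def N (φ : Cnf) : ℕ := 2 * φ.length

/-- the entries of the matrix -/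
def E (φ : Cnf) (a b : Lab) : ℕ :=
  Sum.elim (fun p : ℕ × ℕ => Sum.elim
      (fun q : ℕ × ℕ => if p.1 = q.1 ∧ (q.2 = p.2 ∨ (q.2 + 1) % N φ = p.2) then 1 else 0)
      (fun j : ℕ => if (p.2 = 2 * j ∧ (true, p.1) ∈ φ.getD j []) ∨
        (p.2 = 2 * j + 1 ∧ (false, p.1) ∈ φ.getD j []) then 2 else 0) b)
    (fun j : ℕ => Sum.elim
      (fun q : ℕ × ℕ => if q.2 = 2 * j ∧ ((true, q.1) ∈ φ.getD j [] ∨ (false, q.1) ∈ φ.getD j [])
        then 2 else 0)
      (fun j' : ℕ => if j = j' then 1 else 0) b) a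

theorem E_le (φ : Cnf) (a b : Lab) : E φ a b ≤ 2 := by
  unfold E
  rcases a with p | j <;> rcases b with q | j' <;> simp only [Sum.elim_inl, Sum.elim_inr] <;>
    split_ifs <;> omega

/-- the variables of the formula -/
def vars (φ : Cnf) : List ℕ := (φ.flatMap fun c => c.map Prod.snd).dedup

theorem mem_vars {φ : Cnf} {x : ℕ} : x ∈ vars φ ↔ ∃ c ∈ φ, ∃ b, (b, x) ∈ c := by
  unfold vars
  rw [List.mem_dedup, List.mem_flatMap]
  refine exists_congr fun c => and_congr_right fun _ => ?_
  rw [List.mem_map]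
  constructor
  · rintro ⟨⟨b, y⟩, h, rfl⟩
    exact ⟨b, h⟩
  · rintro ⟨b, h⟩
    exact ⟨_, h, rfl⟩

/-- all labels -/
def labs (φ : Cnf) : List Lab :=
  ((vars φ).flatMap fun x => (List.range (N φ)).map fun i => (Sum.inl (x, i) : Lab)) ++
    (List.range φ.length).map fun j => (Sum.inr j : Lab)

theorem mem_labs {φ : Cnf} {a : Lab} : a ∈ labs φ ↔
    (∃ x i, a = Sum.inl (x, i) ∧ x ∈ vars φ ∧ i < N φ) ∨ ∃ j, a = Sum.inr j ∧ j < φ.length := by
  unfold labs
  rw [List.mem_append]
  refine or_congr ?_ ?_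
  · simp only [List.mem_flatMap, List.mem_map, List.mem_range]
    constructor
    · rintro ⟨x, hx, i, hi, rfl⟩
      exact ⟨x, i, rfl, hx, hi⟩
    · rintro ⟨x, i, rfl, hx, hi⟩
      exact ⟨x, hx, i, hi, rfl⟩
  · simp only [List.mem_map, List.mem_range]
    constructor
    · rintro ⟨j, hj, rfl⟩
      exact ⟨j, rfl, hj⟩
    · rintro ⟨j, rfl, hj⟩
      exact ⟨j, hj, rfl⟩

theorem inl_mem {φ : Cnf} {x i : ℕ} : (Sum.inl (x, i) : Lab) ∈ labs φ ↔ x ∈ vars φ ∧ i < N φ := by
  rw [mem_labs]
  simp

theorem inr_mem {φ : Cnf} {j : ℕ} : (Sum.inr j : Lab) ∈ labs φ ↔ j < φ.length := by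
  rw [mem_labs]
  simp

theorem labs_nodup (φ : Cnf) : (labs φ).Nodup := by
  unfold labs
  rw [List.nodup_append]
  refine ⟨?_, ?_, ?_⟩
  · rw [List.nodup_flatMap]
    refine ⟨fun x _ => ?_, ?_⟩
    · refine List.Nodup.map ?_ List.nodup_range
      intro i j h
      simpa using h
    · refine (List.nodup_dedup _).imp_of_mem ?_
      intro x y _ _ hxy
      simp only [Function.onFun]
      rw [List.disjoint_left]
      intro a h1 h2
      rw [List.mem_map] at h1 h2
      obtain ⟨i, -, rfl⟩ := h1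
      obtain ⟨j, -, h⟩ := h2
      simp only [Sum.inl.injEq, Prod.mk.injEq] at h
      exact hxy h.1.symm
  · refine List.Nodup.map ?_ List.nodup_range
    intro i j h
    simpa using h
  · intro a h1 b h2
    simp only [List.mem_flatMap, List.mem_map] at h1 h2
    obtain ⟨x, -, i, -, rfl⟩ := h1
    obtain ⟨j, -, rfl⟩ := h2
    simp

/-- the matrix of the formula -/
def red (φ : Cnf) : Inst := mt (labs φ) (E φ)

theorem mod_inj {n k i : ℕ} (hk : k < n) (hi : i < n) (h : (k + 1) % n = i) :
    k = (i + n - 1) % n := by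
  rcases Nat.lt_or_ge (k + 1) n with h1 | h1
  · rw [Nat.mod_eq_of_lt h1] at h
    subst h
    have : k + 1 + n - 1 = k + n := by omega
    rw [this, Nat.add_mod_right, Nat.mod_eq_of_lt hk]
  · have h2 : k + 1 = n := by omega
    rw [h2, Nat.mod_self] at h
    subst h
    rw [Nat.zero_add, Nat.mod_eq_of_lt (by omega)]
    omega

theorem mod_back {n i : ℕ} (hi : i < n) : ((i + n - 1) % n + 1) % n = i := by
  rw [Nat.mod_add_mod]
  have : i + n - 1 + 1 = i + n := by omega
  rw [this, Nat.add_mod_right, Nat.mod_eq_of_lt hi]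

theorem back_eq {n i : ℕ} (hi : i < n) : (i + n - 1) % n = if i = 0 then n - 1 else i - 1 := by
  split_ifs with h
  · subst h
    rw [Nat.zero_add, Nat.mod_eq_of_lt (by omega)]
  · have : i + n - 1 = i - 1 + n := by omega
    rw [this, Nat.add_mod_right, Nat.mod_eq_of_lt (by omega)]

/-- from a satisfying assignment to the matchings -/
theorem forward {φ : Cnf} (h : ∃ τ : ℕ → Bool, ∀ c ∈ φ, ∃ l ∈ c, τ l.2 = l.1) :
    ∃ s r : Lab → Lab, (∀ a ∈ labs φ, s a ∈ labs φ ∧ r a ∈ labs φ) ∧
      (∀ a ∈ labs φ, ∀ b ∈ labs φ, s a = s b → a = b) ∧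
      (∀ a ∈ labs φ, ∀ b ∈ labs φ, r a = r b → a = b) ∧
      ∀ a ∈ labs φ, E φ a (s a) = 1 ∧ E φ a (r a) ≠ 0 ∧ s a ≠ r a := by
  classical
  obtain ⟨τ, hτ⟩ := h
  have h1 : ∀ j : ℕ, ∃ l : Bool × ℕ, j < φ.length → l ∈ φ.getD j [] ∧ τ l.2 = l.1 := by
    intro j
    by_cases hj : j < φ.length
    · obtain ⟨l, hl, hl'⟩ := hτ φ[j] (List.getElem_mem hj)
      refine ⟨l, fun _ => ⟨?_, hl'⟩⟩
      rw [List.getD_eq_getElem _ _ hj]
      exact hl
    · exact ⟨(true, 0), fun h => absurd h hj⟩
  choose l hl using h1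
  -- the variable of a chosen literal
  have hv : ∀ j < φ.length, (l j).2 ∈ vars φ := by
    intro j hj
    have := (hl j hj).1
    rw [List.getD_eq_getElem _ _ hj] at this
    exact mem_vars.2 ⟨φ[j], List.getElem_mem hj, (l j).1, this⟩
  let s : Lab → Lab := Sum.elim
    (fun p => if τ p.1 = true then Sum.inl (p.1, (p.2 + N φ - 1) % N φ) else Sum.inl p) Sum.inr
  let r : Lab → Lab := Sum.elim
    (fun p => if τ p.1 = true then
        (if p.2 % 2 = 0 ∧ l (p.2 / 2) = (true, p.1) then Sum.inr (p.2 / 2) else Sum.inl p)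
      else (if p.2 % 2 = 1 ∧ l (p.2 / 2) = (false, p.1) then Sum.inr (p.2 / 2)
        else Sum.inl (p.1, (p.2 + N φ - 1) % N φ)))
    (fun j => Sum.inl ((l j).2, 2 * j))
  have hN : N φ = 2 * φ.length := rfl
  have sT : ∀ x i, τ x = true → s (Sum.inl (x, i)) = Sum.inl (x, (i + N φ - 1) % N φ) :=
    fun x i hx => if_pos hx
  have sF : ∀ x i, τ x = false → s (Sum.inl (x, i)) = Sum.inl (x, i) :=
    fun x i hx => if_neg (by simp [hx])
  have rT1 : ∀ x i, τ x = true → i % 2 = 0 → l (i / 2) = (true, x) →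
      r (Sum.inl (x, i)) = Sum.inr (i / 2) := fun x i hx h2 h3 =>
    (if_pos hx).trans (if_pos ⟨h2, h3⟩)
  have rT2 : ∀ x i, τ x = true → ¬ (i % 2 = 0 ∧ l (i / 2) = (true, x)) →
      r (Sum.inl (x, i)) = Sum.inl (x, i) := fun x i hx h2 =>
    (if_pos hx).trans (if_neg h2)
  have rF1 : ∀ x i, τ x = false → i % 2 = 1 → l (i / 2) = (false, x) →
      r (Sum.inl (x, i)) = Sum.inr (i / 2) := fun x i hx h2 h3 =>
    (if_neg (by simp [hx])).trans (if_pos ⟨h2, h3⟩)
  have rF2 : ∀ x i, τ x = false → ¬ (i % 2 = 1 ∧ l (i / 2) = (false, x)) →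
      r (Sum.inl (x, i)) = Sum.inl (x, (i + N φ - 1) % N φ) := fun x i hx h2 =>
    (if_neg (by simp [hx])).trans (if_neg h2)
  refine ⟨s, r, ?_, ?_, ?_, ?_⟩
  · intro a ha
    rcases mem_labs.1 ha with ⟨x, i, rfl, hx, hi⟩ | ⟨j, rfl, hj⟩
    · have hm : (i + N φ - 1) % N φ < N φ := Nat.mod_lt _ (by omega)
      have hi2 : i / 2 < φ.length := by omega
      rcases Bool.eq_false_or_eq_true (τ x) with ht | ht
      · rw [sT x i ht]
        refine ⟨inl_mem.2 ⟨hx, hm⟩, ?_⟩
        by_cases h2 : i % 2 = 0 ∧ l (i / 2) = (true, x)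
        · rw [rT1 x i ht h2.1 h2.2]
          exact inr_mem.2 hi2
        · rw [rT2 x i ht h2]
          exact ha
      · rw [sF x i ht]
        refine ⟨ha, ?_⟩
        by_cases h2 : i % 2 = 1 ∧ l (i / 2) = (false, x)
        · rw [rF1 x i ht h2.1 h2.2]
          exact inr_mem.2 hi2
        · rw [rF2 x i ht h2]
          exact inl_mem.2 ⟨hx, hm⟩
    · refine ⟨ha, ?_⟩
      exact inl_mem.2 ⟨hv j hj, by omega⟩
  · intro a ha b hb hab
    rcases mem_labs.1 ha with ⟨x, i, rfl, hx, hi⟩ | ⟨j, rfl, hj⟩ <;>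
      rcases mem_labs.1 hb with ⟨y, k, rfl, hy, hk⟩ | ⟨j', rfl, hj'⟩
    · have hxy : x = y := by
        rcases Bool.eq_false_or_eq_true (τ x) with ht | ht <;>
          rcases Bool.eq_false_or_eq_true (τ y) with ht' | ht' <;>
          simp only [sT, sF, ht, ht', Sum.inl.injEq, Prod.mk.injEq] at hab <;> exact hab.1
      subst hxy
      rcases Bool.eq_false_or_eq_true (τ x) with ht | ht
      · rw [sT x i ht, sT x k ht] at hab
        simp only [Sum.inl.injEq, Prod.mk.injEq, true_and] at hab
        have h3 := mod_back hi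
        rw [hab, mod_back hk] at h3
        rw [h3]
      · rw [sF x i ht, sF x k ht] at hab
        exact hab
    · exfalso
      rcases Bool.eq_false_or_eq_true (τ x) with ht | ht
      · rw [sT x i ht] at hab
        simp [s] at hab
      · rw [sF x i ht] at hab
        simp [s] at hab
    · exfalso
      rcases Bool.eq_false_or_eq_true (τ y) with ht | ht
      · rw [sT y k ht] at hab
        simp [s] at hab
      · rw [sF y k ht] at hab
        simp [s] at hab
    · exact hab
  · -- injectivity of `r`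
    have r_inl : ∀ x i, i < N φ → (∃ j, r (Sum.inl (x, i)) = Sum.inr j ∧ j = i / 2 ∧
        l j = (τ x, x) ∧ (i % 2 = 0 ↔ τ x = true)) ∨
        (∃ k, r (Sum.inl (x, i)) = Sum.inl (x, k) ∧
          (τ x = true ∧ k = i ∧ ¬ (i % 2 = 0 ∧ l (i / 2) = (true, x)) ∨
           τ x = false ∧ k = (i + N φ - 1) % N φ ∧ ¬ (i % 2 = 1 ∧ l (i / 2) = (false, x)))) := by
      intro x i hi
      rcases Bool.eq_false_or_eq_true (τ x) with ht | ht
      · by_cases h2 : i % 2 = 0 ∧ l (i / 2) = (true, x)
        · left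
          exact ⟨i / 2, rT1 x i ht h2.1 h2.2, rfl, by rw [ht]; exact h2.2, by simp [h2.1, ht]⟩
        · right
          exact ⟨i, rT2 x i ht h2, Or.inl ⟨ht, rfl, h2⟩⟩
      · by_cases h2 : i % 2 = 1 ∧ l (i / 2) = (false, x)
        · left
          exact ⟨i / 2, rF1 x i ht h2.1 h2.2, rfl, by rw [ht]; exact h2.2, by simp [h2.1, ht]⟩
        · right
          exact ⟨_, rF2 x i ht h2, Or.inr ⟨ht, rfl, h2⟩⟩
    have mixed : ∀ x i j, i < N φ → j < φ.length → r (Sum.inl (x, i)) ≠ r (Sum.inr j) := by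
      intro x i j hi hj hab
      have h5 : r (Sum.inr j) = Sum.inl ((l j).2, 2 * j) := rfl
      rw [h5] at hab
      rcases r_inl x i hi with ⟨j', h6, -⟩ | ⟨k, h6, h7⟩
      · rw [h6] at hab
        simp at hab
      · rw [h6] at hab
        simp only [Sum.inl.injEq, Prod.mk.injEq] at hab
        obtain ⟨h8, h9⟩ := hab
        have h10 := (hl j hj).2
        rw [← h8] at h10
        rcases h7 with ⟨ht, hk, h11⟩ | ⟨ht, hk, h11⟩
        · apply h11
          have h12 : i = 2 * j := by omega
          have h13 : i / 2 = j := by omega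
          refine ⟨by omega, ?_⟩
          rw [h13]
          exact Prod.ext (by rw [← h10, ht]) h8.symm
        · apply h11
          rw [back_eq hi] at hk
          have h12 : i = 2 * j + 1 := by
            split_ifs at hk <;> omega
          have h13 : i / 2 = j := by omega
          refine ⟨by omega, ?_⟩
          rw [h13]
          exact Prod.ext (by rw [← h10, ht]) h8.symm
    intro a ha b hb hab
    rcases mem_labs.1 ha with ⟨x, i, rfl, hx, hi⟩ | ⟨j, rfl, hj⟩ <;>
      rcases mem_labs.1 hb with ⟨y, k, rfl, hy, hk⟩ | ⟨j', rfl, hj'⟩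
    · rcases r_inl x i hi with ⟨j1, h1, h2, h3, h4⟩ | ⟨k1, h1, h2⟩ <;>
        rcases r_inl y k hk with ⟨j2, h5, h6, h7, h8⟩ | ⟨k2, h5, h6⟩
      · rw [h1, h5] at hab
        simp only [Sum.inr.injEq] at hab
        rw [← hab, h3] at h7
        simp only [Prod.mk.injEq] at h7
        obtain ⟨h9, rfl⟩ := h7
        have h10 : i % 2 = 0 ↔ k % 2 = 0 := h4.trans h8.symm
        have : i = k := by omega
        rw [this]
      · rw [h1, h5] at hab
        simp at hab
      · rw [h1, h5] at hab
        simp at hab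
      · rw [h1, h5] at hab
        simp only [Sum.inl.injEq, Prod.mk.injEq] at hab
        obtain ⟨rfl, hkk⟩ := hab
        rcases h2 with ⟨ht, h2, -⟩ | ⟨ht, h2, -⟩ <;> rcases h6 with ⟨ht', h6, -⟩ | ⟨ht', h6, -⟩
        · rw [← h2, hkk, h6]
        · rw [ht] at ht'
          simp at ht'
        · rw [ht] at ht'
          simp at ht'
        · have h9 : (i + N φ - 1) % N φ = (k + N φ - 1) % N φ := by rw [← h2, ← h6, hkk]
          have h3 := mod_back hi
          rw [h9, mod_back hk] at h3
          rw [h3]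
    · exact absurd hab (mixed x i j' hi hj')
    · exact absurd hab.symm (mixed y k j hk hj)
    · have : 2 * j = 2 * j' := by
        have h5 : (Sum.inl ((l j).2, 2 * j) : Lab) = Sum.inl ((l j').2, 2 * j') := hab
        simp only [Sum.inl.injEq, Prod.mk.injEq] at h5
        exact h5.2
      have : j = j' := by omega
      rw [this]
  · intro a ha
    rcases mem_labs.1 ha with ⟨x, i, rfl, hx, hi⟩ | ⟨j, rfl, hj⟩
    · have hb := mod_back hi
      have hne : (i + N φ - 1) % N φ ≠ i := by
        rw [back_eq hi]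
        split_ifs <;> omega
      have hi2 : i / 2 < φ.length := by omega
      rcases Bool.eq_false_or_eq_true (τ x) with ht | ht
      · rw [sT x i ht]
        refine ⟨by simp [E, hb], ?_⟩
        by_cases h2 : i % 2 = 0 ∧ l (i / 2) = (true, x)
        · rw [rT1 x i ht h2.1 h2.2]
          have h3 := (hl _ hi2).1
          rw [h2.2] at h3
          have h4 : i = 2 * (i / 2) := by omega
          refine ⟨?_, by simp⟩
          simp only [E, Sum.elim_inl, Sum.elim_inr]
          rw [if_pos (Or.inl ⟨h4, h3⟩)]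
          norm_num
        · rw [rT2 x i ht h2]
          refine ⟨by simp [E], ?_⟩
          intro h5
          simp only [Sum.inl.injEq, Prod.mk.injEq, true_and] at h5
          exact hne h5
      · rw [sF x i ht]
        refine ⟨by simp [E], ?_⟩
        by_cases h2 : i % 2 = 1 ∧ l (i / 2) = (false, x)
        · rw [rF1 x i ht h2.1 h2.2]
          have h3 := (hl _ hi2).1
          rw [h2.2] at h3
          have h4 : i = 2 * (i / 2) + 1 := by omega
          refine ⟨?_, by simp⟩
          simp only [E, Sum.elim_inl, Sum.elim_inr]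
          rw [if_pos (Or.inr ⟨h4, h3⟩)]
          norm_num
        · rw [rF2 x i ht h2]
          refine ⟨by simp [E, hb], ?_⟩
          intro h5
          simp only [Sum.inl.injEq, Prod.mk.injEq, true_and] at h5
          exact hne h5.symm
    · have h3 := (hl j hj).1
      refine ⟨by simp [s, E], ?_, ?_⟩
      · change E φ (Sum.inr j) (Sum.inl ((l j).2, 2 * j)) ≠ 0
        simp only [E, Sum.elim_inl, Sum.elim_inr]
        have h4 : (true, (l j).2) ∈ φ.getD j [] ∨ (false, (l j).2) ∈ φ.getD j [] := by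
          rcases Bool.eq_false_or_eq_true (l j).1 with hb | hb
          · left
            rw [← hb]
            exact h3
          · right
            rw [← hb]
            exact h3
        rw [if_pos ⟨trivial, h4⟩]
        norm_num
      · change (Sum.inr j : Lab) ≠ Sum.inl ((l j).2, 2 * j)
        simp

/-- from the matchings to a satisfying assignment -/
theorem backward {φ : Cnf} (h : ∃ s r : Lab → Lab, (∀ a ∈ labs φ, s a ∈ labs φ ∧ r a ∈ labs φ) ∧
      (∀ a ∈ labs φ, ∀ b ∈ labs φ, s a = s b → a = b) ∧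
      (∀ a ∈ labs φ, ∀ b ∈ labs φ, r a = r b → a = b) ∧
      ∀ a ∈ labs φ, E φ a (s a) = 1 ∧ E φ a (r a) ≠ 0 ∧ s a ≠ r a) :
    ∃ τ : ℕ → Bool, ∀ c ∈ φ, ∃ l ∈ c, τ l.2 = l.1 := by
  classical
  obtain ⟨s, r, hm, hs, hr, hE⟩ := h
  have hN : N φ = 2 * φ.length := rfl
  -- the first matching on the clauses
  have s_inr : ∀ j < φ.length, s (Sum.inr j) = Sum.inr j := by
    intro j hj
    have h1 := (hE _ (inr_mem.2 hj)).1
    rcases hx : s (Sum.inr j) with p | j'
    · rw [hx] at h1
      simp only [E, Sum.elim_inl, Sum.elim_inr] at h1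
      split_ifs at h1
      omega
    · rw [hx] at h1
      simp only [E, Sum.elim_inr] at h1
      split_ifs at h1 with h2
      rw [h2]
  -- the first matching on the cycles
  have s_inl : ∀ x ∈ vars φ, ∀ i < N φ, s (Sum.inl (x, i)) = Sum.inl (x, i) ∨
      s (Sum.inl (x, i)) = Sum.inl (x, (i + N φ - 1) % N φ) := by
    intro x hx i hi
    have hmem := inl_mem.2 ⟨hx, hi⟩
    have h1 := (hE _ hmem).1
    have h2 := (hm _ hmem).1
    rcases hq : s (Sum.inl (x, i)) with ⟨y, k⟩ | j'
    · rw [hq] at h1 h2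
      simp only [E, Sum.elim_inl] at h1
      split_ifs at h1 with h3
      obtain ⟨rfl, h4⟩ := h3
      have hk := (inl_mem.1 h2).2
      rcases h4 with h4 | h4
      · left
        rw [h4]
      · right
        rw [mod_inj hk hi h4]
    · rw [hq] at h1
      simp only [E, Sum.elim_inl, Sum.elim_inr] at h1
      split_ifs at h1
      omega
  -- propagation
  have step : ∀ x ∈ vars φ, ∀ i, i + 1 < N φ → s (Sum.inl (x, i)) = Sum.inl (x, i) →
      s (Sum.inl (x, i + 1)) = Sum.inl (x, i + 1) := by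
    intro x hx i hi h1
    rcases s_inl x hx (i + 1) hi with h2 | h2
    · exact h2
    · exfalso
      have h3 : (i + 1 + N φ - 1) % N φ = i := by
        rw [back_eq hi]
        simp
      rw [h3, ← h1] at h2
      have h4 := hs _ (inl_mem.2 ⟨hx, hi⟩) _ (inl_mem.2 ⟨hx, by omega⟩) h2
      simp at h4
  have all1 : ∀ x ∈ vars φ, ∀ i, i < N φ → ∀ k, i ≤ k → k < N φ →
      s (Sum.inl (x, i)) = Sum.inl (x, i) → s (Sum.inl (x, k)) = Sum.inl (x, k) := by
    intro x hx i hi k hik
    induction k, hik using Nat.le_induction with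
    | base => intro _ h; exact h
    | succ k hik ih =>
      intro hk h
      exact step x hx k hk (ih (by omega) h)
  have wrap : ∀ x ∈ vars φ, 0 < N φ → s (Sum.inl (x, N φ - 1)) = Sum.inl (x, N φ - 1) →
      s (Sum.inl (x, 0)) = Sum.inl (x, 0) := by
    intro x hx h0 h1
    rcases s_inl x hx 0 h0 with h2 | h2
    · exact h2
    · exfalso
      have h3 : (0 + N φ - 1) % N φ = N φ - 1 := by
        rw [back_eq h0]
        simp
      rw [h3, ← h1] at h2
      have h4 := hs _ (inl_mem.2 ⟨hx, h0⟩) _ (inl_mem.2 ⟨hx, by omega⟩) h2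
      simp only [Sum.inl.injEq, Prod.mk.injEq, true_and] at h4
      omega
  have all : ∀ x ∈ vars φ, ∀ i < N φ, ∀ k < N φ,
      s (Sum.inl (x, i)) = Sum.inl (x, i) → s (Sum.inl (x, k)) = Sum.inl (x, k) := by
    intro x hx i hi k hk h
    have h1 := all1 x hx i hi (N φ - 1) (by omega) (by omega) h
    have h2 := wrap x hx (by omega) h1
    exact all1 x hx 0 (by omega) k (by omega) hk h2
  refine ⟨fun x => decide (s (Sum.inl (x, 0)) ≠ Sum.inl (x, 0)), fun c hc => ?_⟩
  obtain ⟨j, hj, rfl⟩ := List.getElem_of_mem hc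
  have hg : φ.getD j [] = φ[j] := List.getD_eq_getElem _ _ hj
  have hmem := inr_mem.2 hj
  have h1 := (hE _ hmem).2
  have h2 := (hm _ hmem).2
  have hsj := s_inr j hj
  rcases hq : r (Sum.inr j) with ⟨y, k⟩ | j'
  · rw [hq] at h1 h2
    simp only [E, Sum.elim_inl, Sum.elim_inr] at h1
    have h3 := h1.1
    split_ifs at h3 with h4
    swap
    · exact absurd rfl h3
    obtain ⟨rfl, h5⟩ := h4
    obtain ⟨hy, h2k⟩ := inl_mem.1 h2
    by_cases hT : s (Sum.inl (y, 0)) = Sum.inl (y, 0)
    · -- `y` is false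
      have ha : (Sum.inl (y, 2 * j + 1) : Lab) ∈ labs φ := inl_mem.2 ⟨hy, by omega⟩
      have hsa := all y hy 0 (by omega) (2 * j + 1) (by omega) hT
      have hEa := (hE _ ha).2
      have hma := (hm _ ha).2
      rcases hq' : r (Sum.inl (y, 2 * j + 1)) with ⟨z, k'⟩ | j'
      · exfalso
        rw [hq'] at hEa hma
        rw [hsa] at hEa
        simp only [E, Sum.elim_inl] at hEa
        have h6 := hEa.1
        split_ifs at h6 with h7
        swap
        · exact absurd rfl h6
        obtain ⟨rfl, h8⟩ := h7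
        obtain ⟨-, hk'⟩ := inl_mem.1 hma
        rcases h8 with h8 | h8
        · exact hEa.2 (by rw [h8])
        · have h9 := mod_inj hk' (by omega) h8
          rw [back_eq (by omega)] at h9
          simp only [Nat.add_eq_zero_iff, one_ne_zero, and_false, if_false,
            Nat.add_sub_cancel] at h9
          rw [h9, ← hq] at hq'
          have := hr _ ha _ hmem hq'
          simp at this
      · rw [hq'] at hEa
        simp only [E, Sum.elim_inl, Sum.elim_inr] at hEa
        have h6 := hEa.1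
        split_ifs at h6 with h7
        swap
        · exact absurd rfl h6
        rcases h7 with ⟨h7, -⟩ | ⟨h7, h8⟩
        · omega
        · have : j' = j := by omega
          subst this
          rw [hg] at h8
          exact ⟨_, h8, by simp [hT]⟩
    · -- `y` is true
      have ha : (Sum.inl (y, 2 * j) : Lab) ∈ labs φ := inl_mem.2 ⟨hy, by omega⟩
      have hsa : s (Sum.inl (y, 2 * j)) = Sum.inl (y, (2 * j + N φ - 1) % N φ) := by
        rcases s_inl y hy (2 * j) (by omega) with h6 | h6
        · exact absurd (all y hy (2 * j) (by omega) 0 (by omega) h6) hT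
        · exact h6
      have hEa := (hE _ ha).2
      have hma := (hm _ ha).2
      rcases hq' : r (Sum.inl (y, 2 * j)) with ⟨z, k'⟩ | j'
      · exfalso
        rw [hq'] at hEa hma
        rw [hsa] at hEa
        simp only [E, Sum.elim_inl] at hEa
        have h6 := hEa.1
        split_ifs at h6 with h7
        swap
        · exact absurd rfl h6
        obtain ⟨rfl, h8⟩ := h7
        obtain ⟨-, hk'⟩ := inl_mem.1 hma
        rcases h8 with h8 | h8
        · have h9 : r (Sum.inl (y, 2 * j)) = r (Sum.inr j) := by rw [hq, hq', h8]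
          have := hr _ ha _ hmem h9
          simp at this
        · have h9 := mod_inj hk' (by omega) h8
          exact hEa.2 (by rw [h9])
      · rw [hq'] at hEa
        simp only [E, Sum.elim_inl, Sum.elim_inr] at hEa
        have h6 := hEa.1
        split_ifs at h6 with h7
        swap
        · exact absurd rfl h6
        rcases h7 with ⟨h7, h8⟩ | ⟨h7, -⟩
        · have : j' = j := by omega
          subst this
          rw [hg] at h8
          exact ⟨_, h8, by simp [hT]⟩
        · omega
  · exfalso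
    rw [hq] at h1
    simp only [E, Sum.elim_inr] at h1
    have h3 := h1.1
    split_ifs at h3 with h4
    swap
    · exact absurd rfl h3
    subst h4
    exact h1.2 hsj

theorem red_iff (φ : Cnf) : (∃ τ : ℕ → Bool, ∀ c ∈ φ, ∃ l ∈ c, τ l.2 = l.1) ↔ COL2PM (red φ) := by
  unfold red
  rw [col2pm_mt (labs_nodup φ) (E_le φ)]
  exact ⟨forward, backward⟩

end Q229.CP
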